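import Pool.Agent.W_3fea_h44.Final

/-!
# MP_3feab3_lc, Q2: a truly linear algorithm for components of domination number at most 1

Full positive answer to Q2.  There is one program `P` of a random access machine whose only
arithmetic is `+ 1` and `- 1` (so it is weaker than every usual RAM), an absolute constant `C` and
a computable function `f` such that for all graphs `G` with `n` vertices and `m` edges and all `k`
the program decides, in at most `C (n + m) + f k` operations and with all numbers and addresses
bounded by `C (n + m) + f k`, whether there is a set `S` of at most `k` vertices such that every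
component of `G - S` has domination number at most `1`, and outputs such a set if there is one.
-/

namespace Pool.Agent.Results.MP_3feab3_lc.TrulyLinear

open TL

theorem result : ∃ (P : Cmd) (C : ℕ) (f : ℕ → ℕ), Computable f ∧
    ∀ (n : ℕ) (G : SimpleGraph (Fin n)) (k : ℕ) (s : St), IsInput G k s →
      ∃ (t : ℕ) (s' : St), Exec (C * (n + G.edgeSet.ncard) + f k) P s t s' ∧
        t ≤ C * (n + G.edgeSet.ncard) + f k ∧
        ((s'.r 3 = 1 ∧ ∃ S : Finset (Fin n), IsSol G k 1 S ∧ S.card = s'.r 4 ∧
            (∀ i < s'.r 4, s'.m 2 i < n) ∧
            (∀ v : Fin n, v ∈ S ↔ ∃ i < s'.r 4, s'.m 2 i = v)) ∨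
          (s'.r 3 = 0 ∧ ¬ ∃ S : Finset (Fin n), IsSol G k 1 S)) :=
  TL.main

end Pool.Agent.Results.MP_3feab3_lc.TrulyLinear
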